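import Pool.Agent.Y148.BB.Defs
import Pool.Agent.Q72.DP.AJDefs
import Pool.Agent.Q72.DP.CoverDefs

/-!
# Bloch-Beilinson filtrations in infinitely many codimensions: definitions
-/

open CategoryTheory AlgebraicGeometry

universe u v w

namespace Pool.Agent.Q72.BBF

open Pool.Agent.H914 Pool.Agent.H914.VarClass Pool.Agent.H914.VarClass.Obj Pool.Agent.W492.BB
  Pool.Agent.TH133 Pool.Agent.Y148.BB Pool.Agent.Q72.DP

variable {k : Type u} [Field k] {𝒱 : VarClass k}

/-- A family of subspaces `F X j` of the Chow groups of the varieties `X`. -/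
abbrev Fam (C : TheoryData.{u, v, 0} 𝒱 ℚ) : Type (max (u + 1) v) :=
  ∀ X : 𝒱.Obj, ℕ → Submodule ℚ (C.A X)

variable {C : TheoryData.{u, v, 0} 𝒱 ℚ}

/-- The class `z` belongs to the subspace `F X j`. -/
def In (F : Fam C) {X : 𝒱.Obj} (j : ℕ) (z : C.A X) : Prop := z ∈ F X j

variable {K : Type w} [Field K] (H : WeilTheoryData.{u, v, w} C K)

/-- The correspondence `Γ` from `X` to `Y` has degree `i - j` (it maps `CH^j(X)` to `CH^i(Y)`) and
acts as zero on `H^(2j-n)(X)`. -/
def KillsAt {X Y : 𝒱.Obj} (Γ : C.A (X.prod Y)) (j i n : ℕ) : Prop :=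
  C.Deg (X.dim + i - j) Γ ∧ Kills H Γ (2 * j - n)

/-- The subspaces `F n X j = F^n CH^j(X)` are a Bloch-Beilinson filtration: the filtration is
decreasing and satisfies the conditions 1, 2, 3, 4 of the problem, `N` being the kernels of the
Abel-Jacobi maps. -/
structure IsBB (N : Fam C) (F : ℕ → Fam C) : Prop where
  anti : ∀ (n j : ℕ) (X : 𝒱.Obj) (z : C.A X), In (F (n + 1)) j z → In (F n) j z
  zero : ∀ (j : ℕ) (X : 𝒱.Obj) (z : C.A X), In (F 0) j z ↔ C.Deg j z
  one : ∀ (j : ℕ) (X : 𝒱.Obj) (z : C.A X), In (F 1) j z ↔ C.Deg j z ∧ H.cl z = 0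
  two : ∀ (j : ℕ) (X : 𝒱.Obj) (z : C.A X), In (F 2) j z ↔ In N j z
  top : ∀ (j : ℕ) (X : 𝒱.Obj) (z : C.A X), In (F (j + 1)) j z → z = 0
  stable : ∀ (n j i : ℕ) (X Y : 𝒱.Obj) (Γ : C.A (X.prod Y)), C.Deg (X.dim + i - j) Γ →
    ∀ z : C.A X, In (F n) j z → In (F n) i (C.act Γ z)
  shift : ∀ (n j i : ℕ) (X Y : 𝒱.Obj) (Γ : C.A (X.prod Y)), KillsAt H Γ j i n →
    ∀ z : C.A X, In (F n) j z → In (F (n + 1)) i (C.act Γ z)

/-- The non-vanishing of products with zero-cycles on curves: for every class `z ≠ 0` in `CH^j(X)`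
(with rational coefficients) there are a curve `T` and a zero-cycle `t` of degree zero (that is,
homologically trivial) on `T` with `z × t ≠ 0` in `CH^(j+1)(X × T)`. For `k = ℂ` this is known
(C. Schoen, On certain exterior product maps of Chow groups): let `X`, `z` be defined over the
countable algebraically closed field `L`, `T` an elliptic curve which degenerates to a nodal cubic
curve over `L`, and `t = p - o` where `p` specializes to a point of the smooth part `𝔾_m` of the
nodal curve with transcendental coordinate `a`; if `z × t = 0` then the restriction to the special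
fibre gives `z · {a} = 0` in the higher Chow group `CH^(j+1)(X, 1)`, and the residue of this class
at `a = 0` is `z`. -/
def NonzeroProducts : Prop :=
  ∀ (X : 𝒱.Obj) (j : ℕ) (z : C.A X), C.Deg j z → z ≠ 0 → ∃ (T : 𝒱.Obj) (t : C.A T),
    T.dim = 1 ∧ C.Deg 1 t ∧ H.cl t = 0 ∧ C.mul (C.up (fst X T) z) (C.up (snd X T) t) ≠ 0

/-- The `n`-th step `S^n CH^j(X)` of the smallest filtration which satisfies the conditions 1, 3 and
4 of a Bloch-Beilinson filtration: the first three steps are `CH^j(X)`, the homologically trivial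
classes and the kernel `N` of the Abel-Jacobi map, and for `n ≥ 2` the step `S^(n+1) CH^i(X)` is
spanned by the classes `Γ_* z`, where `z ∈ S^n CH^j(Z)` and the correspondence `Γ` from `Z` to `X`
acts as zero on `H^(2j-n)(Z)`. -/
noncomputable def step (N : Fam C) : ℕ → Fam C
  | 0, X, j => C.gr X j
  | 1, X, j => Submodule.span ℚ {z | C.Deg j z ∧ H.cl z = 0}
  | 2, X, j => N X j
  | (n + 3), X, i => Submodule.span ℚ {c | ∃ (Z : 𝒱.Obj) (j : ℕ) (z : C.A Z) (Γ : C.A (Z.prod X)),
      In (step N (n + 2)) j z ∧ KillsAt H Γ j i (n + 2) ∧ c = C.act Γ z}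

/-- There are arbitrarily large `m` with the property `p m V` for all the varieties `V` of dimension
`2 m` in the class `Cov`. -/
def Infinitely (Cov : 𝒱.Obj → Prop) (p : ℕ → 𝒱.Obj → Prop) : Prop :=
  ∀ n : ℕ, ∃ m : ℕ, n ≤ m ∧ ∀ V : 𝒱.Obj, Cov V → V.dim = 2 * m → p m V

/-- `F X j = 0`. -/
def VanishesAt (F : Fam C) (X : 𝒱.Obj) (j : ℕ) : Prop := ∀ z : C.A X, In F j z → z = 0

end Pool.Agent.Q72.BBF
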