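import Pool.Agent.Q72.BBF.Defs
import Pool.Agent.Q69.BB.One
import Pool.Agent.Q72.DP.AJMain
import Pool.Agent.Q72.DP.Dim
import Pool.Agent.Q72.DP.Codim

/-!
# Bloch-Beilinson filtrations in infinitely many codimensions
-/

open CategoryTheory AlgebraicGeometry

universe u v w

namespace Pool.Agent.Q72.BBF

open Pool.Agent.H914 Pool.Agent.H914.VarClass Pool.Agent.H914.VarClass.Obj Pool.Agent.W492.BB
  Pool.Agent.W550.Corr Pool.Agent.TH133 Pool.Agent.TH829.Prime Pool.Agent.Y148.BB
  Pool.Agent.Q69.BB Pool.Agent.Q72.DP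

set_option linter.unusedSectionVars false

variable {k : Type u} [Field k] {𝒱 : VarClass k} {C : TheoryData.{u, v, 0} 𝒱 ℚ}
  [hC : IsChowProj C] {K : Type w} [Field K] {H : WeilTheoryData.{u, v, w} C K}
  [hH : IsWeilProj H] {N : ∀ X : 𝒱.Obj, ℕ → Submodule ℚ (C.A X)}

include hC hH

/-- The filtration of `Pool.Agent.Q69.BB`. -/
lemma step_eq (n : ℕ) (X : 𝒱.Obj) (j : ℕ) : step H N n X j = minFil H N n X j := by
  induction n using Nat.strong_induction_on generalizing X j with
  | _ n ih =>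
    match n, ih with
    | 0, _ => rfl
    | 1, _ =>
      change Submodule.span ℚ {z | C.Deg j z ∧ H.cl z = 0} = C.gr X j ⊓ homTriv H X
      have h : {z : C.A X | C.Deg j z ∧ H.cl z = 0} =
          ((C.gr X j ⊓ homTriv H X : Submodule ℚ (C.A X)) : Set (C.A X)) := rfl
      rw [h, Submodule.span_eq]
    | 2, _ => rfl
    | (n + 3), ih =>
      rw [step, minFil]
      congr 1
      ext c
      simp only [In, ih (n + 2) (by omega), KillsAt, Set.mem_setOf_eq, and_assoc]

/-- The two versions of the definition of a Bloch-Beilinson filtration agree. -/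
lemma exists_isBB_iff :
    (∃ F, IsBB H N F) ↔ ∃ F, IsBlochBeilinsonOn H N (fun _ => True) F := by
  constructor
  · rintro ⟨F, hF⟩
    refine ⟨fun X j n => F n X j, fun X _ j n z hz => hF.anti n j X z hz,
      fun X _ j z => hF.zero j X z, fun X _ j z => hF.one j X z, fun X _ j => ?_, fun X _ j => ?_,
      fun X Y _ _ j i n Γ hΓ z hz => hF.stable n j i X Y Γ hΓ z hz,
      fun X Y _ _ j i n Γ hΓ hk z hz => hF.shift n j i X Y Γ ⟨hΓ, hk⟩ z hz⟩
    · ext z
      exact hF.two j X z
    · rw [eq_bot_iff]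
      intro z hz
      exact (Submodule.mem_bot ℚ).2 (hF.top j X z hz)
  · rintro ⟨F, hF⟩
    refine ⟨fun n X j => F X j n, fun n j X z hz => hF.anti X trivial j n hz,
      fun j X z => hF.zero X trivial j z, fun j X z => hF.one X trivial j z, fun j X z => ?_,
      fun j X z hz => ?_, fun n j i X Y Γ hΓ z hz => hF.stable X Y trivial trivial j i n Γ hΓ z hz,
      fun n j i X Y Γ hΓ z hz => hF.shift X Y trivial trivial j i n Γ hΓ.1 hΓ.2 z hz⟩
    · change z ∈ F X j 2 ↔ z ∈ N X j
      rw [hF.two X trivial j]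
    · have h1 : z ∈ F X j (j + 1) := hz
      rw [hF.top X trivial j] at h1
      exact (Submodule.mem_bot ℚ).1 h1

lemma vanishesAt_iff {F : Fam C} {X : 𝒱.Obj} {j : ℕ} : VanishesAt F X j ↔ F X j = ⊥ := by
  rw [eq_bot_iff]
  exact ⟨fun h z hz => (Submodule.mem_bot ℚ).2 (h z hz),
    fun h z hz => (Submodule.mem_bot ℚ).1 (h hz)⟩

/-- The product with a zero-cycle of degree zero on a curve raises the filtration. -/
lemma ext_raise (hN : IsAbelJacobiKernel H N) {X T : 𝒱.Obj} {z : C.A X} {j n : ℕ}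
    (hz : z ∈ minFil H N n X j) {t : C.A T} (ht : C.Deg 1 t) (h0 : H.cl t = 0) :
    C.ext z t ∈ minFil H N (n + 1) (X.prod T) (j + 1) := by
  have h1 : C.ext z t =
      C.act (C.comp (C.cograph (fst X T)) (C.mulCorr (C.pull (snd X T) t))) z := by
    rw [C.act_comp, C.act_cograph, C.act_mulCorr]
    exact ch_comm C _ _
  have h2 : C.Deg (X.dim : ℤ) (C.cograph (fst X T)) := cograph_mem (fst X T)
  have h3 : C.Deg ((X.prod T).dim + (1 : ℤ)) (C.mulCorr (C.pull (snd X T) t)) := by
    have h := C.push_mem (Obj.lift (𝟙 (X.prod T)) (𝟙 (X.prod T))) (C.pull_mem (snd X T) ht)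
    exact DP.gr_congr (by simp only [dim_prod]; push_cast; ring) h
  have h4 : H.cl (C.mulCorr (C.pull (snd X T) t)) = 0 := by
    have h5 : H.cl (C.pull (snd X T) t) = 0 := by
      rw [H.cl_pull, h0, map_zero]
    rw [TheoryData.mulCorr, H.cl_push, h5, map_zero]
  rw [h1]
  refine minFil_shift hN n X (X.prod T) j (j + 1) _ (comp_mem_deg h2 h3 (by push_cast; ring)) ?_ z
    hz
  intro a _
  rw [actH_comp, h4, TheoryData.act_zero]

/-- The steps of the smallest filtration are stable under correspondences. -/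
lemma step_isAJKernel (hN : IsAbelJacobiKernel H N) (n : ℕ) :
    IsAJKernel H (step H N (n + 1)) where
  deg X j z hz := by
    rw [step_eq] at hz
    have h1 : z ∈ minFil H N 1 X j := by
      have h2 : ∀ m : ℕ, minFil H N (m + 1) X j ≤ minFil H N 1 X j := by
        intro m
        induction m with
        | zero => exact le_rfl
        | succ m ih => exact (minFil_anti hN (m + 1) X j).trans ih
      exact h2 n hz
    exact h1
  stable X Y j i Γ hΓ z hz := by
    rw [step_eq] at hz ⊢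
    exact minFil_stable hN (n + 1) X Y j i Γ hΓ z hz

/-- Raising the codimension with curves. -/
lemma exists_raise (hN : IsAbelJacobiKernel H N) (hP : NonzeroProducts H) {X : 𝒱.Obj} {j n : ℕ}
    {z : C.A X} (hz : z ∈ minFil H N n X j) (hzd : C.Deg j z) (h0 : z ≠ 0) (s : ℕ) :
    ∃ (Y : 𝒱.Obj) (y : C.A Y), Y.dim = X.dim + s ∧ y ∈ minFil H N (n + s) Y (j + s) ∧
      C.Deg ((j + s : ℕ) : ℤ) y ∧ y ≠ 0 := by
  induction s with
  | zero => exact ⟨X, z, rfl, hz, hzd, h0⟩
  | succ s ih =>
    obtain ⟨Y, y, hd, hy, hyd, hy0⟩ := ih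
    obtain ⟨T, t, hT, ht, ht0, hne⟩ := hP Y (j + s) y hyd hy0
    refine ⟨Y.prod T, C.ext y t, ?_, ext_raise hN hy ht ht0, ?_, hne⟩
    · rw [dim_prod, hd, hT]
      ring
    · have h1 := C.mul_mem (C.pull_mem (fst Y T) hyd) (C.pull_mem (snd Y T) ht)
      exact DP.gr_congr (by push_cast; ring) h1

lemma pull_mem_minFil (hN : IsAbelJacobiKernel H N) {X Y : 𝒱.Obj} (f : X ⟶ Y) {n j : ℕ}
    {y : C.A Y} (hy : y ∈ minFil H N n Y j) : C.pull f y ∈ minFil H N n X j := by
  rw [← C.act_cograph f y]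
  refine minFil_stable hN n Y X j j _ ?_ y hy
  have h : C.Deg (Y.dim : ℤ) (C.cograph f) := cograph_mem f
  exact DP.gr_congr (by ring) h

/-- The main step: the vanishing of `S^(m+1) CH^m(V)` for `V` of dimension `2 m` in the class `Cov`
implies the vanishing of `S^(j+1) CH^j(X)` for `j ≤ m`, `dim X - j ≤ m`. -/
theorem vanish_of_middle (hN : IsAbelJacobiKernel H N) (hP : NonzeroProducts H)
    {B : BundleData C} (hB : B.IsKTheory) {Cov : 𝒱.Obj → Prop} (hCov : HasCoverings C Cov)
    {m : ℕ} (h : ∀ V : 𝒱.Obj, Cov V → V.dim = 2 * m → minFil H N (m + 1) V m = ⊥)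
    (X : 𝒱.Obj) (j : ℕ) (hj : j ≤ m) (hd : X.dim ≤ j + m) :
    minFil H N (j + 1) X j = ⊥ := by
  rw [eq_bot_iff]
  intro z hz
  by_contra h0
  rw [Submodule.mem_bot] at h0
  have hzd : C.Deg j z := ((step_isAJKernel hN j).deg X j z (by rwa [step_eq])).1
  obtain ⟨Y, y, hYd, hy, hyd, hy0⟩ := exists_raise hN hP hz hzd h0 (m - j)
  have e1 : j + 1 + (m - j) = m + 1 := by omega
  have e2 : j + (m - j) = m := by omega
  rw [e1, e2] at hy
  obtain ⟨P, f, ξ, -, hξ, hPd, hinj⟩ := exists_trivial hB Y (2 * m - Y.dim)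
  have hPd' : P.dim = 2 * m := by
    rw [hPd]
    omega
  obtain ⟨V, π, q, hV, hVd, hq, hπ⟩ := hCov P
  have h1 := pull_mem_minFil hN π (pull_mem_minFil hN f hy)
  rw [h V hV (by rw [hVd, hPd']), Submodule.mem_bot] at h1
  have h2 : C.push π (C.pull π (C.pull f y) * 1) = q • C.pull f y := by
    rw [C.proj_left]
    have h4 : C.push π 1 = q • (1 : C.A P) := hπ
    rw [h4, mul_smul_comm, mul_one]
  rw [h1, zero_mul, map_zero] at h2
  have h3 : C.pull f y = 0 := (smul_eq_zero.1 h2.symm).resolve_left hq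
  have h4 := hinj y
  rw [h3, zero_mul, map_zero] at h4
  exact hy0 h4.symm

/-- A Bloch-Beilinson filtration exists if and only if the last steps of the smallest filtration
vanish in the middle dimension, for infinitely many `m`. -/
theorem bb_tfae (hN : IsAbelJacobiKernel H N) (hP : NonzeroProducts H) {B : BundleData C}
    (hB : B.IsKTheory) {Cov : 𝒱.Obj → Prop} (hCov : HasCoverings C Cov) :
    [∃ F, IsBB H N F,
      Infinitely Cov fun m V => VanishesAt (step H N (m + 1)) V m,
      Infinitely Cov fun m V => CodimChern (step H N (m + 1)) B V m,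
      Infinitely Cov fun m V => CodimTaut (step H N (m + 1)) B V m].TFAE := by
  rw [exists_isBB_iff]
  have key : ∀ (m : ℕ) (V : 𝒱.Obj), 1 ≤ m → [VanishesAt (step H N (m + 1)) V m,
      CodimChern (step H N (m + 1)) B V m, CodimTaut (step H N (m + 1)) B V m].TFAE := by
    intro m V hm
    rw [vanishesAt_iff (H := H)]
    exact inj_codim hB (step_isAJKernel hN m).adequate V hm
  have shift : ∀ p q : ℕ → 𝒱.Obj → Prop, (∀ m V, 1 ≤ m → p m V → q m V) →
      Infinitely Cov p → Infinitely Cov q := by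
    intro p q hpq h n
    obtain ⟨m, hm, h1⟩ := h (n + 1)
    exact ⟨m, by omega, fun V hV hd => hpq m V (by omega) (h1 V hV hd)⟩
  tfae_have 1 → 2 := by
    rintro ⟨F, hF⟩ n
    refine ⟨n, le_rfl, fun V _ _ => ?_⟩
    intro z hz
    have hz' : z ∈ minFil H N (n + 1) V n := by
      rw [← step_eq]
      exact hz
    have h1 := minFil_le hF (n + 1) V n hz'
    rw [hF.top V trivial n] at h1
    exact (Submodule.mem_bot ℚ).1 h1
  tfae_have 2 → 1 := by
    intro h
    refine ⟨_, minFil_isBB hN fun X j => ?_⟩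
    obtain ⟨m, hm, h1⟩ := h (X.dim + j)
    refine vanish_of_middle (m := m) hN hP hB hCov (fun V hV hd => ?_) X j (by omega) (by omega)
    rw [← step_eq, ← vanishesAt_iff (H := H)]
    exact h1 V hV hd
  tfae_have 2 → 3 := shift _ _ fun m V hm h => ((key m V hm).out 0 1).1 h
  tfae_have 3 → 4 := shift _ _ fun m V hm h => ((key m V hm).out 1 2).1 h
  tfae_have 4 → 2 := shift _ _ fun m V hm h => ((key m V hm).out 2 0).1 h
  tfae_finish

end Pool.Agent.Q72.BBF
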